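import Pool.Agent.BED.Stmts
import Pool.Agent.Helper51_BE01.Eib

set_option autoImplicit false

/-! Row CSP of squad BED (MP_be01ff_an): square root and wave operators of `ι ι*` preserve the
closed subspaces stable under `ι ι*` (copy of `Helper82_BE01/SPC.lean`). -/

namespace Pool.Agent.BED.H4

open Set Filter Topology MeasureTheory
open scoped InnerProductSpace ENNReal
open Pool.Agent.BE01 Pool.Agent.BED

noncomputable section

/-- **CSP**. -/
theorem csp (cdi : CdiStmt) : CspStmt := by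
  intro V H _ _ _ _ _ _ ι hι hcpt
  have hadj : ∀ (h : H) (v : V), ⟪ContinuousLinearMap.adjoint ι h, v⟫_ℝ = ⟪h, ι v⟫_ℝ := fun h v =>
    ContinuousLinearMap.adjoint_inner_left ι v h
  have hadj' : ∀ (h : H) (v : V), ⟪v, ContinuousLinearMap.adjoint ι h⟫_ℝ = ⟪ι v, h⟫_ℝ := fun h v =>
    ContinuousLinearMap.adjoint_inner_right ι v h
  have hSS : ∀ h k : H, ⟪(ι.comp (ContinuousLinearMap.adjoint ι)) h, k⟫_ℝ =
      ⟪ContinuousLinearMap.adjoint ι h, ContinuousLinearMap.adjoint ι k⟫_ℝ := by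
    intro h k
    rw [hadj']
    rfl
  have hsymm : ∀ h k : H, ⟪(ι.comp (ContinuousLinearMap.adjoint ι)) h, k⟫_ℝ =
      ⟪h, (ι.comp (ContinuousLinearMap.adjoint ι)) k⟫_ℝ := by
    intro h k
    rw [hSS, hadj]
    rfl
  have hinj : ∀ h : H, ContinuousLinearMap.adjoint ι h = 0 → h = 0 := by
    intro h hh
    have h1 : ∀ v : V, ⟪h, ι v⟫_ℝ = 0 := by
      intro v
      rw [← hadj, hh, inner_zero_left]
    exact hι.eq_zero_of_inner_left ℝ (fun v => by simpa using h1 v)
  have hpos : ∀ h : H, h ≠ 0 → 0 < ⟪(ι.comp (ContinuousLinearMap.adjoint ι)) h, h⟫_ℝ := by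
    intro h hh
    rw [hSS, real_inner_self_eq_norm_sq]
    have : ContinuousLinearMap.adjoint ι h ≠ 0 := fun h0 => hh (hinj h h0)
    positivity
  obtain ⟨κ, b, s, hs, hSb⟩ := Pool.Agent.BE01.H51.eib H _ hcpt hsymm hpos
  obtain ⟨R, C, Sn, hprp, hkin⟩ := cdi H _ κ b s hs hSb
  have hRd : DenseRange R := by
    have : (LinearMap.range (R : H →ₗ[ℝ] H)).topologicalClosure = ⊤ := by
      rw [Submodule.topologicalClosure_eq_top_iff, Submodule.eq_bot_iff]
      intro x hx
      rw [Submodule.mem_orthogonal] at hx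
      apply hprp.R_inj
      rw [map_zero, ← inner_self_eq_zero (𝕜 := ℝ)]
      have h1 := hx (R (R x)) ⟨R x, rfl⟩
      rw [hprp.R_symm] at h1
      exact h1
    have h2 := Submodule.dense_iff_topologicalClosure_eq_top.2 this
    rw [LinearMap.coe_range] at h2
    exact h2
  have hnorm : ∀ h, ‖ContinuousLinearMap.adjoint ι h‖ = ‖R h‖ := by
    intro h
    have h1 : ‖ContinuousLinearMap.adjoint ι h‖ ^ 2 = ‖R h‖ ^ 2 := by
      rw [← real_inner_self_eq_norm_sq, ← real_inner_self_eq_norm_sq, ← hSS, ← hprp.RR,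
        hprp.R_symm]
    exact (sq_eq_sq₀ (norm_nonneg _) (norm_nonneg _)).1 h1
  let U : H →L[ℝ] V := LinearMap.extendOfNorm
    ((ContinuousLinearMap.adjoint ι : H →L[ℝ] V) : H →ₗ[ℝ] V) (R : H →ₗ[ℝ] H)
  have hU : ∀ h, U (R h) = ContinuousLinearMap.adjoint ι h := by
    intro h
    exact LinearMap.extendOfNorm_eq (f := ((ContinuousLinearMap.adjoint ι : H →L[ℝ] V) : H →ₗ[ℝ] V))
      (e := (R : H →ₗ[ℝ] H)) hRd ⟨1, fun x => by simpa using (hnorm x).le⟩ h
  refine ⟨R, C, Sn, U, hprp, hkin, ?_⟩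
  intro h
  have h2 : (R : H → H) = fun h => ι (U h) := by
    apply hRd.equalizer R.continuous (ι.comp U).continuous
    funext x
    show R (R x) = ι (U (R x))
    rw [hprp.RR, hU]
    rfl
  exact congrFun h2 h

end

end Pool.Agent.BED.H4
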